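import Mathlib
import Pool.Agent.Helper92.ABC.Defs

set_option autoImplicit false

/-!
# Sizes of the parts of an integer (piece ABC-SZ of the project of helper92)
-/

namespace Pool.Agent.Helper92.ABC

open Finset

lemma mem_prs {S : Finset ℕ} {n p : ℕ} :
    p ∈ prs S n ↔ p ∈ n.primeFactors ∧ cls (n.factorization p) ∈ S := by
  simp [prs, Finset.mem_filter]

lemma cls_mem_full {n p : ℕ} (hp : p ∈ n.primeFactors) : cls (n.factorization p) ∈ full := by
  have h1 : 0 < n.factorization p :=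
    (Nat.prime_of_mem_primeFactors hp).factorization_pos_of_dvd
      (Nat.mem_primeFactors.1 hp).2.2 (Nat.mem_primeFactors.1 hp).2.1
  simp only [full, cls, Finset.mem_Icc]
  omega

lemma prs_full (n : ℕ) : prs full n = n.primeFactors := by
  ext p
  rw [mem_prs]
  exact ⟨fun h => h.1, fun h => ⟨h, cls_mem_full h⟩⟩

lemma prime_of_mem_prs {S : Finset ℕ} {n p : ℕ} (hp : p ∈ prs S n) : p.Prime :=
  Nat.prime_of_mem_primeFactors (mem_prs.1 hp).1

lemma prs_compl (S : Finset ℕ) (n : ℕ) :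
    prs (full \ S) n = n.primeFactors.filter (fun p => ¬ cls (n.factorization p) ∈ S) := by
  ext p
  rw [mem_prs, Finset.mem_filter, Finset.mem_sdiff]
  constructor
  · rintro ⟨h1, _, h2⟩
    exact ⟨h1, h2⟩
  · rintro ⟨h1, h2⟩
    exact ⟨h1, cls_mem_full h1, h2⟩

/-- A product over the primes of `S` splits over the classes. -/
lemma prod_prs_eq (S : Finset ℕ) (n : ℕ) (f : ℕ → ℕ) :
    ∏ p ∈ prs S n, f p = ∏ i ∈ S, ∏ p ∈ prs {i} n, f p := by
  have h1 : ∀ p ∈ prs S n, cls (n.factorization p) ∈ S := fun p hp => (mem_prs.1 hp).2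
  rw [← Finset.prod_fiberwise_of_maps_to h1 f]
  refine Finset.prod_congr rfl fun i hi => ?_
  refine Finset.prod_congr ?_ fun _ _ => rfl
  ext p
  rw [Finset.mem_filter, mem_prs, mem_prs, Finset.mem_singleton]
  constructor
  · rintro ⟨⟨h1, _⟩, h3⟩
    exact ⟨h1, h3⟩
  · rintro ⟨h1, h3⟩
    exact ⟨⟨h1, h3 ▸ hi⟩, h3⟩

lemma part_mul_part (S : Finset ℕ) (_hS : S ⊆ full) (n : ℕ) (hn : n ≠ 0) :
    part S n * part (full \ S) n = n := by
  unfold part
  rw [prs_compl]
  unfold prs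
  rw [Finset.prod_filter_mul_prod_filter_not]
  exact Nat.prod_factorization_pow_eq_self hn

lemma part_coprime (S : Finset ℕ) (n : ℕ) : (part S n).Coprime (part (full \ S) n) := by
  unfold part
  refine Nat.Coprime.prod_left fun p hp => Nat.Coprime.prod_right fun q hq => ?_
  have hne : p ≠ q := by
    rintro rfl
    rw [mem_prs] at hp hq
    exact (Finset.mem_sdiff.1 hq.2).2 hp.2
  exact Nat.Coprime.pow _ _
    ((Nat.coprime_primes (prime_of_mem_prs hp) (prime_of_mem_prs hq)).2 hne)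

lemma part_ne_zero (S : Finset ℕ) (n : ℕ) : part S n ≠ 0 := by
  unfold part
  exact Finset.prod_ne_zero_iff.2 fun p hp => pow_ne_zero _ (prime_of_mem_prs hp).ne_zero

lemma rpart_ne_zero (S : Finset ℕ) (n : ℕ) : rpart S n ≠ 0 := by
  unfold rpart
  exact Finset.prod_ne_zero_iff.2 fun p hp => (prime_of_mem_prs hp).ne_zero

lemma primeFactors_part (S : Finset ℕ) (n : ℕ) : (part S n).primeFactors = prs S n := by
  ext q
  rw [Nat.mem_primeFactors]
  constructor
  · rintro ⟨hq, hd, _⟩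
    unfold part at hd
    obtain ⟨p, hp, hqp⟩ := (Prime.dvd_finsetProd_iff hq.prime _).1 hd
    have h1 : q ∣ p := hq.dvd_of_dvd_pow hqp
    have h2 : q = p := (Nat.prime_dvd_prime_iff_eq hq (prime_of_mem_prs hp)).1 h1
    rwa [h2]
  · intro hq
    refine ⟨prime_of_mem_prs hq, ?_, part_ne_zero S n⟩
    unfold part
    refine dvd_trans ?_ (Finset.dvd_prod_of_mem _ hq)
    have hq1 := (mem_prs.1 hq).1
    have h1 : n.factorization q ≠ 0 := by
      have := (Nat.prime_of_mem_primeFactors hq1).factorization_pos_of_dvd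
        (Nat.mem_primeFactors.1 hq1).2.2 (Nat.mem_primeFactors.1 hq1).2.1
      omega
    exact dvd_pow_self q h1

lemma radn_part (S : Finset ℕ) (n : ℕ) : radn (part S n) = rpart S n := by
  unfold radn rpart
  rw [primeFactors_part]

lemma part_eq_rootp_pow (j : ℕ) (_hj : 1 ≤ j) (S : Finset ℕ) (_hS : S ⊆ full)
    (hd : j = 1 ∨ ∀ i ∈ S, i < 5 ∧ j ∣ i) (n : ℕ) : part S n = rootp j S n ^ j := by
  unfold part rootp
  rw [← Finset.prod_pow]
  refine Finset.prod_congr rfl fun p hp => ?_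
  rw [← pow_mul]
  congr 1
  rcases hd with rfl | hd
  · simp
  · have h1 := hd _ (mem_prs.1 hp).2
    have h2 : cls (n.factorization p) = n.factorization p := by
      unfold cls at h1 ⊢
      omega
    rw [h2] at h1
    exact (Nat.div_mul_cancel h1.2).symm

/-- The excess of the `5`-full part. -/
lemma part_five (n : ℕ) :
    part {5} n = rpart {5} n ^ 5 * ∏ p ∈ prs {5} n, p ^ (n.factorization p - 5) := by
  unfold part rpart
  rw [← Finset.prod_pow, ← Finset.prod_mul_distrib]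
  refine Finset.prod_congr rfl fun p hp => ?_
  rw [← pow_add]
  congr 1
  have h1 := (mem_prs.1 hp).2
  rw [Finset.mem_singleton] at h1
  unfold cls at h1
  omega

lemma coord_six (n : ℕ) : coord n 6 = ∏ p ∈ prs {5} n, p ^ (n.factorization p - 5) := by
  unfold coord
  rw [if_pos rfl, part_five, Nat.mul_div_cancel_left]
  exact pow_pos (Nat.pos_of_ne_zero (rpart_ne_zero _ _)) _

lemma part_five' (n : ℕ) : part {5} n = rpart {5} n ^ 5 * coord n 6 := by
  rw [coord_six, part_five]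

lemma coord_of_ne {n i : ℕ} (hi : i ≠ 6) : coord n i = rpart {i} n := by
  unfold coord
  rw [if_neg hi]

lemma coord_of_full {n i : ℕ} (hi : i ∈ full) : coord n i = rpart {i} n := by
  apply coord_of_ne
  simp only [full, Finset.mem_Icc] at hi
  omega

lemma coord_pos (n i : ℕ) (_hn : n ≠ 0) : 1 ≤ coord n i := by
  by_cases hi : i = 6
  · subst hi
    rw [coord_six]
    exact Nat.one_le_iff_ne_zero.2
      (Finset.prod_ne_zero_iff.2 fun p hp => pow_ne_zero _ (prime_of_mem_prs hp).ne_zero)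
  · rw [coord_of_ne hi]
    exact Nat.one_le_iff_ne_zero.2 (rpart_ne_zero _ _)

lemma rpart_eq_prod (S : Finset ℕ) (n : ℕ) : rpart S n = ∏ i ∈ S, rpart {i} n := by
  unfold rpart
  exact prod_prs_eq S n (fun p => p)

lemma coord_lower (Z : ℕ) (n i : ℕ) (hn : n ≠ 0) : Z ^ Nat.log Z (coord n i) ≤ coord n i :=
  Nat.pow_log_le_self Z (by have := coord_pos n i hn; omega)

lemma coord_upper (Z : ℕ) (hZ : 2 ≤ Z) (n i : ℕ) :
    coord n i ≤ Z ^ (Nat.log Z (coord n i) + 1) :=
  (Nat.lt_pow_succ_log_self (by omega) _).le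

lemma radn_lower (Z : ℕ) (_hZ : 2 ≤ Z) (n : ℕ) (hn : n ≠ 0) :
    Z ^ (∑ i ∈ full, Nat.log Z (coord n i)) ≤ radn n := by
  rw [← Finset.prod_pow_eq_pow_sum]
  have h1 : radn n = ∏ i ∈ full, coord n i := by
    have h2 : radn n = rpart full n := by
      unfold radn rpart
      rw [prs_full]
    rw [h2, rpart_eq_prod]
    exact Finset.prod_congr rfl fun i hi => (coord_of_full hi).symm
  rw [h1]
  exact Finset.prod_le_prod' fun i _ => coord_lower Z n i hn

lemma rpart_upper (Z : ℕ) (hZ : 2 ≤ Z) (S : Finset ℕ) (hS : S ⊆ full) (n : ℕ) (_hn : n ≠ 0) :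
    rpart S n ≤ Z ^ wt S (fun i => Nat.log Z (coord n i)) := by
  unfold wt
  rw [rpart_eq_prod, ← Finset.prod_pow_eq_pow_sum]
  refine Finset.prod_le_prod' fun i hi => ?_
  rw [← coord_of_full (hS hi)]
  exact coord_upper Z hZ n i

/-- the root of the part, by classes -/
lemma rootp_eq (j : ℕ) (hj : 1 ≤ j) (S : Finset ℕ) (hS : S ⊆ full)
    (hd : j = 1 ∨ ∀ i ∈ S, i < 5 ∧ j ∣ i) (n : ℕ) :
    rootp j S n = (∏ i ∈ S, coord n i ^ (i / j)) * (if 5 ∈ S then coord n 6 else 1) := by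
  have hlt : ∀ i ∈ S, i ≠ 5 → ∏ p ∈ prs {i} n, p ^ (n.factorization p / j) =
      coord n i ^ (i / j) := by
    intro i hi h5
    rw [coord_of_full (hS hi)]
    unfold rpart
    rw [← Finset.prod_pow]
    refine Finset.prod_congr rfl fun p hp => ?_
    have h1 := (mem_prs.1 hp).2
    rw [Finset.mem_singleton] at h1
    have h2 : n.factorization p = i := by
      have h3 := hS hi
      simp only [full, Finset.mem_Icc] at h3
      unfold cls at h1
      omega
    rw [h2]
  have h0 : rootp j S n = ∏ i ∈ S, ∏ p ∈ prs {i} n, p ^ (n.factorization p / j) := by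
    unfold rootp
    exact prod_prs_eq S n (fun p => p ^ (n.factorization p / j))
  rw [h0]
  by_cases h5 : 5 ∈ S
  · have hj1 : j = 1 := by
      rcases hd with h | h
      · exact h
      · exact absurd (h 5 h5).1 (by omega)
    subst hj1
    rw [if_pos h5, ← Finset.mul_prod_erase S _ h5,
      ← Finset.mul_prod_erase S (fun i => coord n i ^ (i / 1)) h5]
    have h6 : ∏ i ∈ S.erase 5, ∏ p ∈ prs {i} n, p ^ (n.factorization p / 1) =
        ∏ i ∈ S.erase 5, coord n i ^ (i / 1) :=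
      Finset.prod_congr rfl fun i hi => hlt i (Finset.mem_of_mem_erase hi)
        (Finset.ne_of_mem_erase hi)
    rw [h6]
    have h7 : ∏ p ∈ prs {5} n, p ^ (n.factorization p / 1) = coord n 5 ^ (5 / 1) * coord n 6 := by
      have h8 := part_five' n
      rw [coord_of_ne (show (5 : ℕ) ≠ 6 by omega)]
      unfold part at h8
      simpa using h8
    rw [h7]
    ring
  · rw [if_neg h5, mul_one]
    refine Finset.prod_congr rfl fun i hi => hlt i hi ?_
    rintro rfl
    exact h5 hi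

/-- lower bound for the (root of the) part -/
lemma rootp_lower (Z : ℕ) (_hZ : 2 ≤ Z) (j : ℕ) (hj : 1 ≤ j) (S : Finset ℕ) (hS : S ⊆ full)
    (hd : j = 1 ∨ ∀ i ∈ S, i < 5 ∧ j ∣ i) (n : ℕ) (hn : n ≠ 0) :
    Z ^ rc j S (fun i => Nat.log Z (coord n i)) ≤ rootp j S n := by
  rw [rootp_eq j hj S hS hd n]
  unfold rc
  rw [pow_add, ← Finset.prod_pow_eq_pow_sum]
  refine Nat.mul_le_mul ?_ ?_
  · refine Finset.prod_le_prod' fun i _ => ?_
    rw [mul_comm, pow_mul]
    exact Nat.pow_le_pow_left (coord_lower Z n i hn) _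
  · split_ifs
    · exact coord_lower Z n 6 hn
    · simp

lemma sum_div_le (j : ℕ) (hj : 1 ≤ j) (S : Finset ℕ) (hS : S ⊆ full)
    (hd : j = 1 ∨ ∀ i ∈ S, i < 5 ∧ j ∣ i) :
    ∑ i ∈ S, i / j + (if 5 ∈ S then 1 else 0) ≤ if j = 1 then 16 else 3 := by
  by_cases h1 : j = 1
  · subst h1
    rw [if_pos rfl]
    have h2 : ∑ i ∈ S, i / 1 ≤ ∑ i ∈ full, i / 1 :=
      Finset.sum_le_sum_of_subset_of_nonneg hS fun _ _ _ => Nat.zero_le _
    have h3 : ∑ i ∈ full, i / 1 = 15 := by decide
    have h4 : (if 5 ∈ S then 1 else 0) ≤ 1 := by split_ifs <;> omega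
    omega
  · rw [if_neg h1]
    have hd' : ∀ i ∈ S, i < 5 ∧ j ∣ i := by
      rcases hd with h | h
      · exact absurd h h1
      · exact h
    have h5 : 5 ∉ S := fun h => by
      have := (hd' 5 h).1
      omega
    rw [if_neg h5, add_zero]
    have hsub : S ⊆ full.filter (fun i => i < 5 ∧ j ∣ i) := fun i hi =>
      Finset.mem_filter.2 ⟨hS hi, hd' i hi⟩
    have h2 : ∑ i ∈ S, i / j ≤ ∑ i ∈ full.filter (fun i => i < 5 ∧ j ∣ i), i / j :=
      Finset.sum_le_sum_of_subset_of_nonneg hsub fun _ _ _ => Nat.zero_le _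
    refine h2.trans ?_
    by_cases hj5 : 5 ≤ j
    · have he : full.filter (fun i => i < 5 ∧ j ∣ i) = ∅ := by
        rw [Finset.filter_eq_empty_iff]
        rintro i hi ⟨h6, h7⟩
        simp only [full, Finset.mem_Icc] at hi
        have := Nat.le_of_dvd (by omega) h7
        omega
      rw [he]
      simp
    · have h6 : j = 2 ∨ j = 3 ∨ j = 4 := by omega
      rcases h6 with rfl | rfl | rfl <;> decide

/-- upper bound for the (root of the) part; the constant is `16` for `j = 1` and `3` else -/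
lemma rootp_upper (Z : ℕ) (hZ : 2 ≤ Z) (j : ℕ) (hj : 1 ≤ j) (S : Finset ℕ) (hS : S ⊆ full)
    (hd : j = 1 ∨ ∀ i ∈ S, i < 5 ∧ j ∣ i) (n : ℕ) (_hn : n ≠ 0) :
    rootp j S n ≤ Z ^ (rc j S (fun i => Nat.log Z (coord n i)) + if j = 1 then 16 else 3) := by
  rw [rootp_eq j hj S hS hd n]
  have h1 : (∏ i ∈ S, coord n i ^ (i / j)) ≤
      Z ^ ∑ i ∈ S, (i / j) * (Nat.log Z (coord n i) + 1) := by
    rw [← Finset.prod_pow_eq_pow_sum]
    refine Finset.prod_le_prod' fun i _ => ?_
    rw [mul_comm, pow_mul]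
    exact Nat.pow_le_pow_left (coord_upper Z hZ n i) _
  have h2 : (if 5 ∈ S then coord n 6 else 1) ≤
      Z ^ ((if 5 ∈ S then Nat.log Z (coord n 6) else 0) + (if 5 ∈ S then 1 else 0)) := by
    split_ifs
    · exact coord_upper Z hZ n 6
    · simp
  refine (Nat.mul_le_mul h1 h2).trans ?_
  rw [← pow_add]
  refine Nat.pow_le_pow_right (by omega) ?_
  have h3 := sum_div_le j hj S hS hd
  have h4 : ∑ i ∈ S, (i / j) * (Nat.log Z (coord n i) + 1) =
      ∑ i ∈ S, (i / j) * Nat.log Z (coord n i) + ∑ i ∈ S, i / j := by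
    rw [← Finset.sum_add_distrib]
    exact Finset.sum_congr rfl fun i _ => by ring
  rw [h4]
  simp only [rc]
  omega

lemma rootp_one_full (n : ℕ) (hn : n ≠ 0) : rootp 1 full n = n := by
  have h1 := part_mul_part full (Finset.Subset.refl _) n hn
  have h2 : part (full \ full) n = 1 := by
    unfold part prs
    simp
  rw [h2, mul_one] at h1
  have h3 := part_eq_rootp_pow 1 le_rfl full (Finset.Subset.refl _) (Or.inl rfl) n
  rw [pow_one] at h3
  rw [← h3, h1]

/-- `n` is below `Z ^ (its size + 16)` and above `Z ^ (its size)` -/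
lemma size_lower (Z : ℕ) (hZ : 2 ≤ Z) (n : ℕ) (hn : n ≠ 0) :
    Z ^ rc 1 full (fun i => Nat.log Z (coord n i)) ≤ n := by
  have h := rootp_lower Z hZ 1 le_rfl full (Finset.Subset.refl _) (Or.inl rfl) n hn
  rwa [rootp_one_full n hn] at h

lemma size_upper (Z : ℕ) (hZ : 2 ≤ Z) (n : ℕ) (hn : n ≠ 0) :
    n ≤ Z ^ (rc 1 full (fun i => Nat.log Z (coord n i)) + 16) := by
  have h := rootp_upper Z hZ 1 le_rfl full (Finset.Subset.refl _) (Or.inl rfl) n hn
  rwa [rootp_one_full n hn, if_pos rfl] at h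

end Pool.Agent.Helper92.ABC
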